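import Mathlib

namespace Pool.Agent.Results.MP_648063_co.Bound

open SimpleGraph Finset

variable {V : Type}

/-- `f` is an edge of the cycle closed by `e` in `T ∪ {e}` -/
def OnCycle (T : SimpleGraph V) (e f : Sym2 V) : Prop :=
  f = e ∨ ∃ x y, e = s(x, y) ∧ ∃ p : T.Walk x y, p.IsPath ∧ f ∈ p.edges

/-- number of unordered pairs of distinct tree-cycles with a common edge -/
noncomputable def inter (H T : SimpleGraph V) : ℕ :=
  {P : Finset (Sym2 V) | P.card = 2 ∧ (∀ e ∈ P, e ∈ H.edgeSet ∧ e ∉ T.edgeSet) ∧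
    ∃ f, ∀ e ∈ P, OnCycle T e f}.ncard

theorem ends {T : SimpleGraph V} (hT : T.Connected) (e : Sym2 V) (hd : ¬ e.IsDiag) (he : e ∉ T.edgeSet) :
    ∃ x a b y, e = s(x, y) ∧ T.Adj x a ∧ T.Adj y b ∧ s(x, a) ≠ s(y, b) ∧ T.dist a b + 2 ≤ T.dist x y ∧
      OnCycle T e s(x, a) ∧ OnCycle T e s(y, b) := by
  induction e using Sym2.ind with
  | _ x y =>
  obtain ⟨p, hp⟩ := hT.exists_walk_length_eq_dist x y
  have hq := p.isPath_of_length_eq_dist hp
  cases p with
  | nil => simp at hd
  | @cons _ a _ h p =>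
    have hay : y ≠ a := by rintro rfl; exact he h
    obtain ⟨b, h', q, e⟩ := Walk.exists_eq_cons_of_ne hay p.reverse
    have hl := congrArg Walk.length e
    have hm : s(y, b) ∈ p.edges := by
      rw [← List.mem_reverse, ← Walk.edges_reverse, e]; simp
    refine ⟨x, a, b, y, rfl, h, h', fun e => ?_, ?_, .inr ⟨x, y, rfl, _, hq, by simp⟩,
      .inr ⟨x, y, rfl, _, hq, by simp [hm]⟩⟩
    · exact (List.nodup_cons.1 hq.isTrail.edges_nodup).1 (show s(x, a) ∈ p.edges from e ▸ hm)
    · have := T.dist_le q.reverse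
      simp only [Walk.length_reverse, Walk.length_cons] at *
      omega

theorem uniq {T : SimpleGraph V} (hT : T.Connected) {x a b y x' a' b' y' : V} (h1 : T.Adj x a)
    (h2 : T.Adj y b) (h3 : T.dist a b + 2 ≤ T.dist x y) (h4 : T.dist a' b' + 2 ≤ T.dist x' y')
    (e1 : s(x, a) = s(x', a')) (e2 : s(y, b) = s(y', b')) : s(x, y) = s(x', y') := by
  have d1 := dist_eq_one_iff_adj.2 h1
  have d2 := dist_eq_one_iff_adj.2 h2
  have d3 := dist_eq_one_iff_adj.2 h1.symm
  have d4 := dist_eq_one_iff_adj.2 h2.symm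
  have t1 := hT.dist_triangle (u := a) (v := b) (w := y)
  have t2 := hT.dist_triangle (u := x) (v := a) (w := b)
  have t3 := hT.dist_triangle (u := x) (v := a) (w := y)
  have t4 := hT.dist_triangle (u := x) (v := b) (w := y)
  rcases Sym2.eq_iff.1 e1 with ⟨rfl, rfl⟩ | ⟨rfl, rfl⟩ <;>
    rcases Sym2.eq_iff.1 e2 with ⟨rfl, rfl⟩ | ⟨rfl, rfl⟩ <;> first | rfl | omega

theorem tangent (d q : ℕ) : (q.choose 2 : ℤ) + q * (d - q) ≤ d.choose 2 := by
  have h : ∀ m : ℕ, 2 * (m.choose 2 : ℤ) = m * (m - 1) := fun m => by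
    induction m with
    | zero => simp
    | succ m ih => rw [Nat.choose_succ_succ' m 1, Nat.choose_one_right]; push_cast; linarith
  have h1 := h d
  have h2 := h q
  rcases le_or_gt d q with c | c
  · have : (d : ℤ) ≤ q := by exact_mod_cast c
    nlinarith
  · have : (q : ℤ) + 1 ≤ d := by exact_mod_cast c
    nlinarith

theorem result (n : ℕ) (H T : SimpleGraph (Fin n)) (hle : T ≤ H) (hT : T.IsTree) (q r : ℕ)
    (hq : 2 * (H.edgeSet.ncard + 1 - n) = q * (n - 1) + r) :
    (n - 1) * q.choose 2 + q * r ≤ inter H T := by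
  classical
  set N := H.edgeFinset \ T.edgeFinset with hN
  have hT1 : T.edgeFinset.card + 1 = n := by simpa using hT.card_edgeFinset
  have hsub : T.edgeFinset ⊆ H.edgeFinset := edgeFinset_mono hle
  have hNc : N.card = H.edgeSet.ncard + 1 - n := by
    rw [hN, card_sdiff_of_subset hsub, ← coe_edgeFinset, Set.ncard_coe_finset]; omega
  have hmem : ∀ e ∈ N, e ∈ H.edgeSet ∧ e ∉ T.edgeSet := fun e he => by simpa [hN] using he
  have : Nonempty (Fin n) := hT.1.nonempty
  choose! x a b y h0 h1 h2 h3 h4 h5 h6 using fun e (he : e ∈ N) =>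
    ends hT.1 e (H.not_isDiag_of_mem_edgeSet (hmem e he).1) (hmem e he).2
  let S : Sym2 (Fin n) → Finset (Sym2 (Fin n)) := fun f =>
    N.filter fun e => f = s(x e, a e) ∨ f = s(y e, b e)
  have hsum : ∑ f ∈ T.edgeFinset, (S f).card = 2 * N.card := by
    have := sum_card_bipartiteAbove_eq_sum_card_bipartiteBelow (s := T.edgeFinset) (t := N)
      (fun f e => f = s(x e, a e) ∨ f = s(y e, b e))
    refine this.trans ?_
    rw [mul_comm, ← smul_eq_mul, ← sum_const]
    refine sum_congr rfl fun e he => ?_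
    rw [← card_pair (h3 e he)]
    congr 1
    ext f
    simp only [mem_bipartiteBelow, mem_edgeFinset, mem_insert, mem_singleton, and_iff_right_iff_imp]
    rintro (rfl | rfl)
    · exact h1 e he
    · exact h2 e he
  have hdis : (T.edgeFinset : Set (Sym2 (Fin n))).PairwiseDisjoint fun f => powersetCard 2 (S f) := by
    intro f _ g _ hfg
    refine disjoint_left.2 fun P hP hP' => ?_
    rw [mem_powersetCard] at hP hP'
    obtain ⟨e, e', hne, rfl⟩ := card_eq_two.1 hP.2
    simp only [S, insert_subset_iff, singleton_subset_iff, mem_filter] at hP hP'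
    obtain ⟨⟨⟨m, p1⟩, m', p2⟩, -⟩ := hP
    obtain ⟨⟨⟨-, p3⟩, -, p4⟩, -⟩ := hP'
    apply hne
    rw [h0 e m, h0 e' m']
    have u1 := uniq hT.1 (h1 e m) (h2 e m) (h4 e m) (h4 e' m')
    have u2 := uniq hT.1 (h1 e m) (h2 e m) (h4 e m) (x' := y e') (a' := b e') (b' := a e') (y' := x e')
      (by rw [T.dist_comm, T.dist_comm (u := y e')]; exact h4 e' m')
    rw [Sym2.eq_swap (a := y e') (b := x e')] at u2
    grind
  have hle : ∑ f ∈ T.edgeFinset, (S f).card.choose 2 ≤ inter H T := by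
    simp only [← card_powersetCard]
    rw [← card_biUnion hdis, ← Set.ncard_coe_finset]
    refine Set.ncard_le_ncard (fun P hP => ?_) (Set.toFinite _)
    simp only [coe_biUnion, Set.mem_iUnion, mem_coe, mem_powersetCard] at hP
    obtain ⟨f, -, hs, hc⟩ := hP
    refine ⟨hc, fun e he => hmem e (mem_filter.1 (hs he)).1, f, fun e he => ?_⟩
    obtain ⟨m, rfl | rfl⟩ := mem_filter.1 (hs he)
    · exact h5 e m
    · exact h6 e m
  have h7 := sum_le_sum fun f (_ : f ∈ T.edgeFinset) => tangent (S f).card q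
  rw [sum_add_distrib, ← mul_sum, sum_sub_distrib, sum_const, sum_const, ← Nat.cast_sum, ← Nat.cast_sum,
    hsum, hNc, hq, show T.edgeFinset.card = n - 1 by omega] at h7
  zify at hle ⊢
  simp only [nsmul_eq_mul] at h7
  push_cast at h7 hle ⊢
  nlinarith

end Pool.Agent.Results.MP_648063_co.Bound
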